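import Pool.Agent.N893.TB.Stm

/-! # TB/SHIFT: a telescoping identity (helper942, for project TB of helper893) -/

set_option autoImplicit false

namespace Pool.Agent.N942.TB.SHIFT

open Finset Pool.Agent.N893.TB

/-- Abel's inequality (copied from Pool/Agent/N893/SM/M1.lean) -/
lemma abel_anti {l h : ℕ → ℝ} {C : ℝ} (hl : ∀ n, l (n + 1) ≤ l n) (hl0 : ∀ n, 0 ≤ l n) (N : ℕ)
    (hh : ∀ n ≤ N, |∑ k ∈ Finset.range n, h k| ≤ C) : |∑ k ∈ Finset.range N, l k * h k| ≤ C * l 0 := by
  have e : ∀ n, ∑ k ∈ Finset.range n, l k * h k = l n * (∑ k ∈ Finset.range n, h k) +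
      ∑ k ∈ Finset.range n, (l k - l (k + 1)) * ∑ i ∈ Finset.range (k + 1), h i := by
    intro n
    induction n with
    | zero => simp
    | succ n ih =>
      rw [Finset.sum_range_succ, ih, Finset.sum_range_succ (fun k => (l k - l (k + 1)) * _), Finset.sum_range_succ h]
      ring
  rw [e N]
  have h1 : |l N * ∑ k ∈ Finset.range N, h k| ≤ l N * C := by
    rw [abs_mul, abs_of_nonneg (hl0 N)]
    exact mul_le_mul_of_nonneg_left (hh N le_rfl) (hl0 N)
  have h2 : |∑ k ∈ Finset.range N, (l k - l (k + 1)) * ∑ i ∈ Finset.range (k + 1), h i| ≤ ∑ k ∈ Finset.range N, (l k - l (k + 1)) * C := by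
    refine (Finset.abs_sum_le_sum_abs _ _).trans (Finset.sum_le_sum fun k hk => ?_)
    rw [Finset.mem_range] at hk
    rw [abs_mul, abs_of_nonneg (by linarith [hl k])]
    exact mul_le_mul_of_nonneg_left (hh _ (by omega)) (by linarith [hl k])
  rw [← Finset.sum_mul, Finset.sum_range_sub'] at h2
  calc _ ≤ _ := abs_add_le _ _
    _ ≤ l N * C + (l 0 - l N) * C := add_le_add h1 h2
    _ = C * l 0 := by ring

lemma hh_val (T : ℕ → ℝ) (hT : ∀ k, T k = 0 ∨ T k = 1) (k : ℕ) : |hh T k| = 1 / 2 := by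
  induction k with
  | zero => simp only [hh]; rw [abs_neg]; exact abs_of_pos (by norm_num)
  | succ k ih =>
    rcases hT k with h | h
    · simp only [hh, h, zero_mul, add_zero, abs_neg]
      exact ih
    · have : hh T (k + 1) = 1 / 2 := by
        simp only [hh, h]
        ring
      rw [this]
      exact abs_of_pos (by norm_num)

theorem main : tSHIFT := by
  intro a β g T M hg hg0 hT hβ hM
  refine ⟨M * g 0, fun K => ?_⟩
  have hv : ∀ k, |β k * hh T k| ≤ M / 2 := by
    intro k
    rw [abs_mul, hh_val T hT k]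
    have := hM k
    linarith
  have e : ∑ k ∈ range K, g k * (a k * hh T k) - ∑ k ∈ range K, g k * (β (k + 1) * (T k * (hh T k + 1 / 2))) =
      ∑ k ∈ range K, g k * (β k * hh T k - β (k + 1) * hh T (k + 1)) := by
    rw [← Finset.sum_sub_distrib]
    refine Finset.sum_congr rfl fun k _ => ?_
    have h1 : hh T (k + 1) = -hh T k + T k * (hh T k + 1 / 2) := rfl
    rw [h1, ← hβ k]
    ring
  rw [e]
  refine abel_anti hg hg0 K fun n _ => ?_
  rw [Finset.sum_range_sub' (fun k => β k * hh T k)]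
  have h1 := hv 0
  have h2 := hv n
  rw [abs_le] at h1 h2 ⊢
  constructor <;> linarith

end Pool.Agent.N942.TB.SHIFT
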